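import Pool.Agent.Helper63.QP2.St1

/-!
# Project QD, part P, module ITR: assembly of the induction over the short classes
-/

set_option autoImplicit false

open Filter Topology Matrix Set Metric MeasureTheory
open scoped ComplexConjugate ENNReal

namespace Pool.Agent.Helper11.QP2

open Pool.Agent.Helper63.QP2
open Pool.Agent.Helper35.PM (hs Mat SL IsDiscrete SurfaceGroup Adapted IsQF HolDisc pressureDist)
open Pool.Agent.Helper20.QD (Fuch cj IsSU D DD SS)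
open Pool.Agent.Helper68.QC (nq Bel InvB Intw mob den)
open Pool.Agent.Helper68.QS (Intw2)
open Pool.Agent.Helper20.QP (Prim Cj TF FD sh ll StI StOP1 StNCL StCEN)
open Pool.Agent.Helper17.QD (Sta cc pre Thk StFPC StOPN)

theorem norm_trace_cc {Γ : Type} [Group Γ] (σ : Γ →* SL) (γ : Γ) :
    ‖((cc σ γ : SL) : Mat).trace‖ = ‖((σ γ : SL) : Mat).trace‖ := by
  rw [Matrix.trace_fin_two, Matrix.trace_fin_two]
  have h : ∀ i j, ((cc σ γ : SL) : Mat) i j = conj (((σ γ : SL) : Mat) i j) := fun i j => rfl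
  rw [h, h, ← map_add, RCLike.norm_conj]

theorem dist_cj {Γ : Type} [Group Γ] (U : (Γ →* SL) → Ultrafilter ℝ) (ρ : Γ →* SL) (C : SL) :
    pressureDist U ρ (cj C ρ) ≤ 0 :=
  sInf_le (Pool.Agent.Helper35.PM.PressureLE.conj ρ (cj C ρ) C (fun _ => Or.inl rfl))

/-- ITR -/
theorem pITR (hNSH : Pool.Agent.Helper63.QP2.StNSH) (hSWP : Pool.Agent.Helper63.QP2.StSWP)
    (hITI : Pool.Agent.Helper63.QP2.StITI) (hLLF : Pool.Agent.Helper63.QP2.StLLF)
    (hSY : Pool.Agent.Helper35.PM.St_SY) (hTFR : Pool.Agent.Helper86.QA.StTFR) :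
    Pool.Agent.Helper63.QP2.StITR := by
  intro hOP1 g hg
  obtain ⟨ε0, ε1, D, h0, h1, hD, hop⟩ := hOP1 g hg
  obtain ⟨N, hN⟩ := hNSH g hg
  have he2 : 0 < 2 * Real.arsinh (1 / 128) := by
    have := Real.arsinh_pos_iff.2 (show (0 : ℝ) < 1 / 128 by norm_num)
    linarith
  set ε : ℝ := min (min ε0 ε1) (2 * Real.arsinh (1 / 128)) with hεd
  have hε : 0 < ε := lt_min (lt_min h0 h1) he2
  have hε0 : ε ≤ ε0 := (min_le_left _ _).trans (min_le_left _ _)
  have hε1 : ε ≤ ε1 := (min_le_left _ _).trans (min_le_right _ _)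
  have hε2 : ε ≤ 2 * Real.arsinh (1 / 128) := min_le_right _ _
  have hεf : 0 < ε / 2 ^ N := by positivity
  refine ⟨2 * Real.cosh (ε / 2 ^ N / 2) - 2, ?_, N * D, by positivity, ?_⟩
  · have := Real.one_lt_cosh.2 (show ε / 2 ^ N / 2 ≠ 0 by positivity)
    linarith
  intro U hU σ ρ μ k hSta
  obtain ⟨μ', C1, hI⟩ := hSWP.1 _ σ ρ μ k hSta
  have hsh' : Short (cc σ) ε N := fun a ha =>
    hN _ hI.fs a (fun i => ⟨(ha i).1, (ha i).2.trans_le hε2⟩)
  obtain ⟨σ', ρ', κ', k', hI', hdist, hlow⟩ := hITI g U ε0 ε1 D h0 h1 hD (hop U hU) N ε (cc σ)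
    (cj C1 ρ) μ' k hε hε0 hε1 hI hsh'
  obtain ⟨μ'', C2, hS'⟩ := hSWP.2 _ σ' ρ' κ' k' hI'
  refine ⟨cc σ', cj C2 ρ', μ'', k', hS', ?_, ?_⟩
  · have ht := hLLF.2.2.2.2.2 _ σ' (ε / 2 ^ N) hI'.fs (hTFR g) hεf hlow
    intro γ hγ
    rw [norm_trace_cc]
    exact ht γ hγ
  · have htri := (hSY (SurfaceGroup g) U).2
    calc pressureDist U ρ (cj C2 ρ')
        ≤ pressureDist U ρ (cj C1 ρ) + pressureDist U (cj C1 ρ) (cj C2 ρ') := htri _ _ _
      _ ≤ 0 + (pressureDist U (cj C1 ρ) ρ' + pressureDist U ρ' (cj C2 ρ')) :=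
          add_le_add (dist_cj U ρ C1) (htri _ _ _)
      _ ≤ 0 + (ENNReal.ofReal (N * D) + 0) :=
          add_le_add le_rfl (add_le_add hdist (dist_cj U ρ' C2))
      _ = ENNReal.ofReal (N * D) := by rw [zero_add, add_zero]

end Pool.Agent.Helper11.QP2
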